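import Pool.Agent.Q103.SD.Abc
import Pool.Agent.Y954.U557.BMG

/-!
# Vanishing sums of products of powers of numbers with small digits, any number of terms
-/

set_option autoImplicit false

namespace Pool.Agent.Q204.NT

open Polynomial Finset Filter
open Pool.Agent.Q103.SD (PP eval_PP identity sizeZ smallZ value_size JJ size_PP prod_lower PP_ne_zero)

/-- The hypotheses on the bases, the coefficients and the exponents. -/
structure Dat (K : ℕ) (H : ℝ) {m n : ℕ} (F : Fin m → ℤ[X]) (α : Fin n → ℤ)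
    (e : Fin n → Fin m → ℕ) : Prop where
  pos : ∀ i, 0 < (F i).natDegree
  deg : ∑ i, (F i).natDegree ≤ K
  coeff : ∀ i j, |((F i).coeff j : ℝ)| ≤ H
  unit : ∀ i, |(F i).coeff 0| ≤ 1
  ne : ∀ k, α k ≠ 0
  coef : ∀ k, |(α k : ℝ)| ≤ H
  exps : ∀ k, ((∑ i, e k i : ℕ) : ℝ) ≤ H

/-- admissible tuples -/
def Adm {n : ℕ} (x : Fin n → ℤ) : Prop :=
  (∀ d : ℤ, (∀ i, d ∣ x i) → IsUnit d) ∧ ∑ i, x i = 0 ∧
    ∀ s : Finset (Fin n), s.Nonempty → s ≠ Finset.univ → ∑ i ∈ s, x i ≠ 0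

theorem Dat.F0 {K : ℕ} {H : ℝ} {m n : ℕ} {F : Fin m → ℤ[X]} {α : Fin n → ℤ} {e : Fin n → Fin m → ℕ}
    (h : Dat K H F α e) (i : Fin m) : F i ≠ 0 := fun h0 => by
  have := h.pos i
  rw [h0, natDegree_zero] at this
  omega

/-- **Relations come from identities.** -/
theorem ident (n K : ℕ) : ∃ δ : ℝ, 0 < δ ∧ δ ≤ 1 / 2 ∧ ∃ t₀ : ℕ, 64 ≤ t₀ ∧ ∀ t : ℕ, t₀ ≤ t →
    ∀ (m : ℕ) (F : Fin m → ℤ[X]) (α : Fin n → ℤ) (e : Fin n → Fin m → ℕ),
      Dat K ((t : ℝ) ^ δ) F α e → Adm (fun k => (PP F (α k) (e k)).eval (t : ℤ)) →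
      ∑ k, PP F (α k) (e k) = 0 := by
  obtain ⟨J, hJ⟩ : ∃ J, J = JJ K n := ⟨_, rfl⟩
  obtain ⟨δ, hδ⟩ : ∃ δ : ℝ, δ = 1 / (2 * (1 + 2 * J)) := ⟨_, rfl⟩
  have hδ0 : 0 < δ := by rw [hδ]; positivity
  have hδ1 : δ ≤ 1 / 2 := by
    rw [hδ, div_le_div_iff₀ (by positivity) (by norm_num)]
    have : (0 : ℝ) ≤ J := by positivity
    linarith
  refine ⟨δ, hδ0, hδ1, max ((n + 1) ^ 2) 64, le_max_right _ _, ?_⟩
  intro t ht m F α e hD hA
  have ht64 : 64 ≤ t := (le_max_right _ _).trans ht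
  have htn : (n + 1) ^ 2 ≤ t := (le_max_left _ _).trans ht
  have htR : (64 : ℝ) ≤ t := by exact_mod_cast ht64
  have ht0 : (0 : ℝ) < t := by linarith
  obtain ⟨B, hB⟩ : ∃ B : ℝ, B = (t : ℝ) ^ δ := ⟨_, rfl⟩
  rw [← hB] at hD
  have hB1 : 1 ≤ B := by rw [hB]; exact Real.one_le_rpow (by linarith) hδ0.le
  obtain ⟨r, hr⟩ : ∃ r : ℝ, r = (t : ℝ) ^ (1 / 2 : ℝ) := ⟨_, rfl⟩
  have hrr : r * r = t := by
    rw [hr, ← Real.rpow_add ht0]
    norm_num
  have hr0 : 0 ≤ r := by rw [hr]; positivity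
  have hrn : (n : ℝ) + 1 ≤ r := by
    have h1 : ((n : ℝ) + 1) ^ 2 ≤ r ^ 2 := by
      rw [sq r, hrr]
      exact_mod_cast htn
    exact (pow_le_pow_iff_left₀ (by positivity) hr0 (by norm_num)).1 h1
  obtain ⟨k0, hk0⟩ : ∃ k0, ¬ (t : ℤ) ∣ (PP F (α k0) (e k0)).eval (t : ℤ) := by
    by_contra hcon
    push Not at hcon
    have := hA.1 (t : ℤ) hcon
    rw [Int.isUnit_iff] at this
    omega
  refine identity (A := ℤ) sizeZ (t := (t : ℤ))
    (by exact_mod_cast (show t ≠ 0 by omega)) (T := (t : ℝ)) (fun x h1 h2 => smallZ x h1 h2) hD.F0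
    (D := K) hD.deg (H := B) hB1
    (fun i => by
      have h1 := hD.unit i
      show |((F i).coeff 0 : ℝ)| ≤ 1
      exact_mod_cast h1)
    hD.coeff (α := α) hD.ne hD.coef e (N := ⌊B⌋₊) (Nat.le_floor (by simpa using hB1))
    (fun k => Nat.le_floor (hD.exps k)) ?_ hA.2.1 k0 hk0 hA.2.2
  rw [Fintype.card_fin, ← hJ]
  have h1 : (n : ℝ) * B * (⌊B⌋₊ * B) ^ J ≤ n * B * (B * B) ^ J := by
    apply mul_le_mul_of_nonneg_left _ (by positivity)
    apply pow_le_pow_left₀ (by positivity)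
    exact mul_le_mul_of_nonneg_right (Nat.floor_le (by linarith)) (by linarith)
  have h2 : B * (B * B) ^ J = r := by
    have : B * (B * B) ^ J = B ^ (1 + 2 * J) := by
      rw [pow_add, pow_mul, pow_one, sq]
    rw [this, hB, hr, ← Real.rpow_mul_natCast ht0.le]
    congr 1
    rw [hδ]
    push_cast
    field_simp
  have h3 : (n : ℝ) * B * (B * B) ^ J = n * r := by rw [mul_assoc, h2]
  rw [h3] at h1
  refine h1.trans_lt ?_
  nlinarith

/-- A common factor of the values. -/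
theorem common {K : ℕ} {H : ℝ} {m n : ℕ} {F : Fin m → ℤ[X]} {α : Fin n → ℤ} {e : Fin n → Fin m → ℕ}
    (hD : Dat K H F α e) (hH : 0 ≤ H) {t : ℕ} (hHt : H + 3 ≤ t)
    (hA : ∀ d : ℤ, (∀ k, d ∣ (PP F (α k) (e k)).eval (t : ℤ)) → IsUnit d) (r : ℂ) :
    ∃ k, ((PP F (α k) (e k)).map (Int.castRingHom ℂ)).eval r ≠ 0 := by
  by_contra hcon
  push Not at hcon
  have hinj : Function.Injective (Int.castRingHom ℂ) := Int.cast_injective
  -- every term has a base vanishing at `r`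
  have h1 : ∀ k, ∃ i, e k i ≠ 0 ∧ ((F i).map (Int.castRingHom ℂ)).eval r = 0 := by
    intro k
    have h2 := hcon k
    unfold PP at h2
    rw [Polynomial.map_mul, Polynomial.map_prod, eval_mul, map_C, eval_C, eval_prod] at h2
    rcases mul_eq_zero.1 h2 with h3 | h3
    · exact absurd ((map_eq_zero_iff _ hinj).1 h3) (hD.ne k)
    · obtain ⟨i, _, hi⟩ := Finset.prod_eq_zero_iff.1 h3
      rw [Polynomial.map_pow, eval_pow] at hi
      refine ⟨i, ?_, eq_zero_of_pow_eq_zero hi⟩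
      intro h0
      rw [h0, pow_zero] at hi
      exact one_ne_zero hi
  -- the number `r` is algebraic
  rcases isEmpty_or_nonempty (Fin n) with hn | ⟨⟨k1⟩⟩
  · have := hA 2 (fun k => (hn.false k).elim)
    rw [Int.isUnit_iff] at this
    omega
  have hint : ∀ P : ℤ[X], (P.map (Int.castRingHom ℂ)).eval r =
      aeval r (P.map (Int.castRingHom ℚ)) := by
    intro P
    rw [aeval_def, eval_map, eval₂_map]
    congr 1
  have halg : IsIntegral ℚ r := by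
    obtain ⟨i, _, hi⟩ := h1 k1
    rw [hint] at hi
    exact (isAlgebraic_iff_isIntegral).1 ⟨_, (Polynomial.map_ne_zero_iff
      (Int.cast_injective : Function.Injective (Int.castRingHom ℚ))).2 (hD.F0 i), hi⟩
  obtain ⟨G, hG, c, hc, hGP⟩ := Pool.Agent.Q103.FC.exists_primitive (minpoly.ne_zero halg)
  have hdvd : ∀ {P : ℤ[X]}, (P.map (Int.castRingHom ℂ)).eval r = 0 → G ∣ P := by
    intro P hP
    apply hG.dvd_of_fraction_map_dvd_fraction_map (K := ℚ)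
    change G.map (Int.castRingHom ℚ) ∣ P.map (Int.castRingHom ℚ)
    rw [hGP]
    have hCu : IsUnit (C c : ℚ[X]) := isUnit_C.mpr (isUnit_iff_ne_zero.mpr hc)
    refine (hCu.mul_left_dvd).mpr ?_
    apply minpoly.dvd
    rw [← hint]
    exact hP
  have hdegG : 0 < G.natDegree := by
    have h2 : (G.map (Int.castRingHom ℚ)).natDegree = (minpoly ℚ r).natDegree := by
      rw [hGP, natDegree_C_mul hc]
    rw [natDegree_map_eq_of_injective (Int.cast_injective : Function.Injective (Int.castRingHom ℚ))] at h2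
    rw [h2]
    exact minpoly.natDegree_pos halg
  obtain ⟨i1, _, hi1⟩ := h1 k1
  refine Pool.Agent.Q103.FC.dvd_eval (hD.F0 i1) (hdvd hi1) hdegG hH (hD.coeff i1) hHt ?_
  apply hA
  intro k
  obtain ⟨i, hi0, hi⟩ := h1 k
  obtain ⟨u, hu⟩ := hdvd hi
  have h3 : G.eval (t : ℤ) ∣ (F i).eval (t : ℤ) := ⟨u.eval (t : ℤ), by rw [← eval_mul, ← hu]⟩
  rw [eval_PP]
  exact Dvd.dvd.mul_left ((h3.trans (dvd_pow_self _ hi0)).trans
    (Finset.dvd_prod_of_mem (fun i => (F i).eval (t : ℤ) ^ e k i) (Finset.mem_univ i))) _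

/-- the bases that occur -/
def used {m n : ℕ} (e : Fin n → Fin m → ℕ) : Finset (Fin m) :=
  Finset.univ.filter (fun i => ∃ k, e k i ≠ 0)

/-- the exponent -/
def M (n : ℕ) : ℕ := (n - 1) * (n - 2) / 2 * max 1 (n - 3)

theorem two_M (n : ℕ) : 2 * M n = (n - 1) * (n - 2) * max 1 (n - 3) := by
  unfold M
  rw [← mul_assoc]
  congr 1
  apply Nat.mul_div_cancel'
  rcases Nat.lt_or_ge n 2 with h | h
  · have : n - 1 = 0 := by omega
    rw [this, zero_mul]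
    exact dvd_zero _
  · obtain ⟨a, rfl⟩ : ∃ a, n = a + 2 := ⟨n - 2, by omega⟩
    have h1 : a + 2 - 1 = a + 1 := by omega
    have h2 : a + 2 - 2 = a := by omega
    rw [h1, h2, mul_comm]
    exact (Nat.even_mul_succ_self a).two_dvd

theorem natDegree_PP {m : ℕ} {F : Fin m → ℤ[X]} (hF : ∀ i, F i ≠ 0) {η : ℤ} (hη : η ≠ 0)
    (e : Fin m → ℕ) : (PP F η e).natDegree = ∑ i, e i * (F i).natDegree := by
  unfold PP
  rw [natDegree_C_mul hη, natDegree_prod _ _ (fun i _ => pow_ne_zero _ (hF i))]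
  exact Finset.sum_congr rfl fun i _ => natDegree_pow _ _

/-- **The degrees.** -/
theorem degrees {K : ℕ} {H : ℝ} {m n : ℕ} {F : Fin m → ℤ[X]} {α : Fin n → ℤ} {e : Fin n → Fin m → ℕ}
    (hD : Dat K H F α e) (hH : 0 ≤ H) {t : ℕ} (hHt : H + 3 ≤ t)
    (hA : Adm (fun k => (PP F (α k) (e k)).eval (t : ℤ))) (hid : ∑ k, PP F (α k) (e k) = 0)
    (hU : (used e).Nonempty) (k : Fin n) :
    ∑ i, e k i * (F i).natDegree + M n ≤ M n * ∑ i ∈ used e, (F i).natDegree := by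
  classical
  have hinj : Function.Injective (Int.castRingHom ℂ) := Int.cast_injective
  obtain ⟨P, hP⟩ : ∃ P : Fin n → ℂ[X], ∀ k, P k = (PP F (α k) (e k)).map (Int.castRingHom ℂ) :=
    ⟨_, fun k => rfl⟩
  have hPP0 : ∀ k, PP F (α k) (e k) ≠ 0 := fun k => PP_ne_zero hD.F0 (hD.ne k) _
  have hP0 : ∀ k, P k ≠ 0 := fun k => by
    rw [hP]; exact (Polynomial.map_ne_zero_iff hinj).mpr (hPP0 k)
  have hdegP : ∀ k, (P k).natDegree = ∑ i, e k i * (F i).natDegree := fun k => by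
    rw [hP, natDegree_map_eq_of_injective hinj, natDegree_PP hD.F0 (hD.ne k)]
  obtain ⟨i1, hi1⟩ := hU
  obtain ⟨k1, hk1⟩ := (Finset.mem_filter.1 hi1).2
  obtain ⟨kD, -, hkD⟩ := Finset.exists_max_image (Finset.univ : Finset (Fin n))
    (fun k => (P k).natDegree) ⟨k1, Finset.mem_univ _⟩
  have hD1 : 1 ≤ (P kD).natDegree := by
    refine le_trans ?_ (hkD k1 (Finset.mem_univ _))
    rw [hdegP]
    refine le_trans ?_ (Finset.single_le_sum (f := fun i => e k1 i * (F i).natDegree)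
      (fun _ _ => Nat.zero_le _) (Finset.mem_univ i1))
    exact Nat.mul_pos (Nat.pos_of_ne_zero hk1) (hD.pos i1)
  have key := Pool.Agent.Y954.U557.bmg_holds ℂ n P (P kD).natDegree hP0
    (fun i => IsAlgClosed.splits _)
    (fun r => by
      obtain ⟨k, hk⟩ := common hD hH hHt hA.1 r
      exact ⟨k, by rw [hP]; exact hk⟩)
    (by
      simp only [hP]
      rw [← Polynomial.map_sum, hid, Polynomial.map_zero])
    (fun s hs hsu h0 => by
      simp only [hP] at h0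
      rw [← Polynomial.map_sum, Polynomial.map_eq_zero_iff hinj] at h0
      apply hA.2.2 s hs hsu
      rw [← eval_finsetSum, h0, eval_zero])
    (fun i => hkD i (Finset.mem_univ _)) ⟨kD, rfl⟩ hD1
  have hnz : Pool.Agent.Y557.NF.nz P ≤ ∑ i ∈ used e, (F i).natDegree + 1 := by
    unfold Pool.Agent.Y557.NF.nz
    refine add_le_add ?_ (by split_ifs <;> omega)
    obtain ⟨G, hG⟩ : ∃ G : ℂ[X], G = ∏ i ∈ used e, (F i).map (Int.castRingHom ℂ) := ⟨_, rfl⟩
    have hG0 : G ≠ 0 := by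
      rw [hG]
      exact Finset.prod_ne_zero_iff.mpr fun i _ => (Polynomial.map_ne_zero_iff hinj).mpr (hD.F0 i)
    have hsub : Pool.Agent.Y557.NF.rts P ⊆ G.roots.toFinset := by
      intro a ha
      unfold Pool.Agent.Y557.NF.rts at ha
      rw [Multiset.mem_toFinset, mem_roots (Finset.prod_ne_zero_iff.mpr fun i _ => hP0 i), IsRoot.def,
        eval_prod] at ha
      obtain ⟨k, _, hk⟩ := Finset.prod_eq_zero_iff.1 ha
      rw [hP] at hk
      unfold PP at hk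
      rw [Polynomial.map_mul, Polynomial.map_prod, eval_mul, map_C, eval_C, eval_prod] at hk
      rcases mul_eq_zero.1 hk with h3 | h3
      · exact absurd ((map_eq_zero_iff _ hinj).1 h3) (hD.ne k)
      · obtain ⟨i, _, hi⟩ := Finset.prod_eq_zero_iff.1 h3
        rw [Polynomial.map_pow, eval_pow] at hi
        have hi0 : e k i ≠ 0 := by
          intro h0
          rw [h0, pow_zero] at hi
          exact one_ne_zero hi
        rw [Multiset.mem_toFinset, mem_roots hG0, IsRoot.def, hG, eval_prod]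
        exact Finset.prod_eq_zero (Finset.mem_filter.2 ⟨Finset.mem_univ _, k, hi0⟩)
          (eq_zero_of_pow_eq_zero hi)
    refine (Finset.card_le_card hsub).trans ((Multiset.toFinset_card_le _).trans
      ((card_roots' _).trans ?_))
    rw [hG]
    refine (natDegree_prod_le _ _).trans (Finset.sum_le_sum fun i _ => natDegree_map_le)
  rw [← two_M] at key
  have h1 : (P k).natDegree ≤ (P kD).natDegree := hkD k (Finset.mem_univ _)
  rw [hdegP k] at h1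
  have h2 := Nat.mul_le_mul_left (2 * M n) hnz
  have h3 : 2 * M n * (∑ i ∈ used e, (F i).natDegree + 1) =
      2 * (M n * ∑ i ∈ used e, (F i).natDegree) + 2 * M n := by ring
  rw [h3] at h2
  omega

/-- **The sizes.** -/
theorem sizes (n K : ℕ) (ε : ℝ) (hε : 0 < ε) : ∃ δ : ℝ, 0 < δ ∧ ∃ t₀ : ℕ, ∀ t : ℕ, t₀ ≤ t →
    ∀ (m : ℕ) (F : Fin m → ℤ[X]) (α : Fin n → ℤ) (e : Fin n → Fin m → ℕ),
      Dat K ((t : ℝ) ^ δ) F α e → Adm (fun k => (PP F (α k) (e k)).eval (t : ℤ)) →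
      ∑ k, PP F (α k) (e k) = 0 → (used e).Nonempty → ∀ k,
        |(((PP F (α k) (e k)).eval (t : ℤ) : ℤ) : ℝ)| * (t : ℝ) ^ ((M n : ℝ) - ε) ≤
          |((∏ i ∈ used e, (F i).eval (t : ℤ) : ℤ) : ℝ)| ^ M n := by
  obtain ⟨δ, hδ⟩ : ∃ δ : ℝ, δ = min (1 / 2) (ε / (2 * (M n * K + 1))) := ⟨_, rfl⟩
  have hδ0 : 0 < δ := by rw [hδ]; exact lt_min (by norm_num) (by positivity)
  have hδ1 : δ ≤ 1 / 2 := by rw [hδ]; exact min_le_left _ _
  have hδ2 : δ * (M n * K + 1) ≤ ε / 2 := by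
    have h1 : δ ≤ ε / (2 * (M n * K + 1)) := by rw [hδ]; exact min_le_right _ _
    calc δ * (M n * K + 1) ≤ ε / (2 * (M n * K + 1)) * (M n * K + 1) :=
          mul_le_mul_of_nonneg_right h1 (by positivity)
      _ = ε / 2 := by field_simp
  have hw : Tendsto (fun t : ℕ => (t : ℝ) ^ (ε / 2)) atTop atTop :=
    (tendsto_rpow_atTop (by positivity)).comp tendsto_natCast_atTop_atTop
  obtain ⟨t₀, ht₀⟩ := eventually_atTop.mp
    ((hw.eventually_ge_atTop ((4 : ℝ) ^ (M n * K))).and (eventually_ge_atTop 64))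
  refine ⟨δ, hδ0, t₀, ?_⟩
  intro t ht m F α e hD hA hid hU k
  obtain ⟨h4, ht64⟩ := ht₀ t ht
  have htR : (64 : ℝ) ≤ t := by exact_mod_cast ht64
  have ht0 : (0 : ℝ) < t := by linarith
  obtain ⟨B, hB⟩ : ∃ B : ℝ, B = (t : ℝ) ^ δ := ⟨_, rfl⟩
  rw [← hB] at hD
  have hB1 : 1 ≤ B := by rw [hB]; exact Real.one_le_rpow (by linarith) hδ0.le
  obtain ⟨r, hr⟩ : ∃ r : ℝ, r = (t : ℝ) ^ (1 / 2 : ℝ) := ⟨_, rfl⟩
  have hrr : r * r = t := by
    rw [hr, ← Real.rpow_add ht0]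
    norm_num
  have hr8 : 8 ≤ r := by
    have hr0 : 0 ≤ r := by rw [hr]; positivity
    nlinarith
  have hBr : B ≤ r := by
    rw [hB, hr]
    exact Real.rpow_le_rpow_of_exponent_le (by linarith) hδ1
  have hBt : 4 * B ≤ t := by nlinarith
  have hdeg := degrees hD (by linarith) (t := t) (by nlinarith) hA hid hU k
  obtain ⟨S, hS⟩ : ∃ S, S = ∑ i ∈ used e, (F i).natDegree := ⟨_, rfl⟩
  rw [← hS] at hdeg
  have hSK : S ≤ K := by
    rw [hS]
    exact (Finset.sum_le_univ_sum_of_nonneg fun _ => Nat.zero_le _).trans hD.deg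
  obtain ⟨d, hd⟩ : ∃ d, d + M n = M n * S := ⟨M n * S - M n, by omega⟩
  have hx := size_PP (t := t) (by omega) hB1 hBt hD.coeff hD.pos (hD.coef k) (e k) (d := d) (by omega)
  have hlow := prod_lower (t := t) (by omega) (by linarith) hBt hD.coeff hD.pos hD.deg (used e)
  rw [← hS] at hlow
  rw [eval_PP]
  obtain ⟨Q, hQ⟩ : ∃ Q, Q = |((∏ i ∈ used e, (F i).eval (t : ℤ) : ℤ) : ℝ)| := ⟨_, rfl⟩
  obtain ⟨x, hxd⟩ : ∃ x, x = |((α k * ∏ i, (F i).eval (t : ℤ) ^ e k i : ℤ) : ℝ)| := ⟨_, rfl⟩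
  rw [← hQ] at hlow ⊢
  rw [← hxd] at hx ⊢
  have hQ0 : 0 ≤ Q := by rw [hQ]; exact abs_nonneg _
  have hx0 : 0 ≤ x := by rw [hxd]; exact abs_nonneg _
  have hdK : d ≤ M n * K := by
    have := Nat.mul_le_mul_left (M n) hSK
    omega
  have hBK : B ^ (M n * K + 1) ≤ (t : ℝ) ^ (ε / 2) := by
    rw [hB, ← Real.rpow_mul_natCast ht0.le]
    apply Real.rpow_le_rpow_of_exponent_le (by linarith)
    push_cast
    exact hδ2
  obtain ⟨τ, hτ⟩ : ∃ τ : ℝ, τ = (t : ℝ) ^ (ε / 2) := ⟨_, rfl⟩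
  rw [← hτ] at h4 hBK
  have hτ0 : 0 < τ := by rw [hτ]; positivity
  have h5 : B * (2 * B) ^ d ≤ 2 ^ (M n * K) * τ := by
    calc B * (2 * B) ^ d = 2 ^ d * B ^ (d + 1) := by rw [mul_pow]; ring
      _ ≤ 2 ^ (M n * K) * B ^ (M n * K + 1) := by
          apply mul_le_mul (pow_le_pow_right₀ (by norm_num) hdK)
            (pow_le_pow_right₀ hB1 (by omega)) (by positivity) (by positivity)
      _ ≤ _ := mul_le_mul_of_nonneg_left hBK (by positivity)
  -- the power of `t`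
  obtain ⟨ρ, hρ⟩ : ∃ ρ : ℝ, ρ = (t : ℝ) ^ ((M n : ℝ) - ε) := ⟨_, rfl⟩
  rw [← hρ]
  have hρ0 : 0 < ρ := by rw [hρ]; positivity
  have h6 : ρ * (τ * τ) = (t : ℝ) ^ M n := by
    rw [hρ, hτ, ← Real.rpow_add ht0, ← Real.rpow_add ht0, ← Real.rpow_natCast]
    congr 1
    ring
  -- the lower bound for `Q`
  have h7 : ((t : ℝ) ^ S) ^ M n ≤ (2 ^ K * Q) ^ M n := pow_le_pow_left₀ (by positivity) hlow _
  have h8 : ((t : ℝ) ^ S) ^ M n = (t : ℝ) ^ d * (t : ℝ) ^ M n := by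
    rw [← pow_mul, ← pow_add, hd, mul_comm]
  have h9 : (2 ^ K * Q) ^ M n = 2 ^ (M n * K) * Q ^ M n := by
    rw [mul_pow, ← pow_mul, mul_comm K]
  rw [h8, h9] at h7
  obtain ⟨w, hw2⟩ : ∃ w : ℝ, w = 2 ^ (M n * K) := ⟨_, rfl⟩
  have hw0 : 0 < w := by rw [hw2]; positivity
  have h44 : (4 : ℝ) ^ (M n * K) = w * w := by
    rw [hw2, ← mul_pow]; norm_num
  rw [h44] at h4
  rw [← hw2] at h5 h7
  have h10 : x * ρ * (w * w) ≤ (w * w) * Q ^ M n := by
    calc x * ρ * (w * w) ≤ (B * ((2 * B) ^ d * (t : ℝ) ^ d)) * ρ * τ := by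
          apply mul_le_mul _ h4 (by positivity) (by positivity)
          exact mul_le_mul_of_nonneg_right hx hρ0.le
      _ = (B * (2 * B) ^ d) * (t : ℝ) ^ d * ρ * τ := by ring
      _ ≤ (w * τ) * (t : ℝ) ^ d * ρ * τ := by
          apply mul_le_mul_of_nonneg_right _ hτ0.le
          apply mul_le_mul_of_nonneg_right _ hρ0.le
          exact mul_le_mul_of_nonneg_right h5 (by positivity)
      _ = w * ((t : ℝ) ^ d * (ρ * (τ * τ))) := by ring
      _ = w * ((t : ℝ) ^ d * (t : ℝ) ^ M n) := by rw [h6]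
      _ ≤ w * (w * Q ^ M n) := mul_le_mul_of_nonneg_left h7 hw0.le
      _ = (w * w) * Q ^ M n := by ring
  have h11 : (w * w) * (x * ρ) ≤ (w * w) * Q ^ M n := by linarith
  exact le_of_mul_le_mul_left h11 (by positivity)

end Pool.Agent.Q204.NT
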